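import Pool.Agent.Strip051.Box.C2
import Pool.Agent.Strip051.Box.S30
import Pool.Agent.Strip051.LB.Fc.F2

/-! # LINE tight chart ChA00V1_pp_023 -/

namespace Pool.Agent.Strip051.LB.ChA00V1_pp_023

open Pool.Agent.Strip051.Box Pool.Agent.Strip051.Box2

open Pool.Agent.Strip051.LB.Fc Pool.Agent.Strip051.LB.Fc.F2 Pool.Agent.Strip051.LB.Fn Pool.Agent.Strip051.LB.Fn.F2

/-- coordinates of a point of the box -/
def In (b : Bx) (E : Pt) (x1 x2 : ℝ) : Prop :=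
  (S : ℝ) * x1 = ((b.p1 : ℝ) - b.n1) + b.q1 * E.e1 ∧ (S : ℝ) * x2 = ((b.p2 : ℝ) - b.n2) + b.q2 * E.e2

variable {b : Bx} {E : Pt} {x1 x2 : ℝ}

def t0 (b : Bx) : TM := X1 b
noncomputable def v0 (x1 _x2 : ℝ) : ℝ := x1
theorem h0 (h : In b E x1 x2) : Enc S E (t0 b) (v0 x1 x2) := enc_X1 h.1

def t1 (b : Bx) : TM := X2 b
noncomputable def v1 (_x1 x2 : ℝ) : ℝ := x2
theorem h1 (h : In b E x1 x2) : Enc S E (t1 b) (v1 x1 x2) := enc_X2 h.2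

def t2 (_b : Bx) : TM := tconst 1859775393 0 1
noncomputable def v2 (_x1 _x2 : ℝ) : ℝ := Real.sqrt ((3 : ℕ) : ℝ)
theorem h2 (_h : In b E x1 x2) : Enc S E (t2 b) (v2 x1 x2) := enc_sqrtn E (by decide) (by decide)

def t3 (b : Bx) : TM := tscale 1 2 (t2 b)
noncomputable def v3 (x1 x2 : ℝ) : ℝ := ((1 : ℕ) : ℝ) / ((2 : ℕ) : ℝ) * v2 x1 x2
theorem h3 (h : In b E x1 x2) : Enc S E (t3 b) (v3 x1 x2) := enc_scale 1 (by norm_num) (h2 h)

def t4 (b : Bx) : TM := tsq S (t0 b)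
noncomputable def v4 (x1 x2 : ℝ) : ℝ := (v0 x1 x2) ^ 2
theorem h4 (h : In b E x1 x2) : Enc S E (t4 b) (v4 x1 x2) := enc_sq hS (h0 h)

def t5 (_b : Bx) : TM := tconst (Nat.mul 1 S) 0 0
noncomputable def v5 (_x1 _x2 : ℝ) : ℝ := ((1 : ℕ) : ℝ)
theorem h5 (_h : In b E x1 x2) : Enc S E (t5 b) (v5 x1 x2) := enc_nc E 1

def t6 (b : Bx) : TM := tsub (t5 b) (t4 b)
noncomputable def v6 (x1 x2 : ℝ) : ℝ := v5 x1 x2 - v4 x1 x2
theorem h6 (h : In b E x1 x2) : Enc S E (t6 b) (v6 x1 x2) := enc_sub (h5 h) (h4 h)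

def t7 (b : Bx) : TM := tsqrt S (t6 b)
noncomputable def v7 (x1 x2 : ℝ) : ℝ := Real.sqrt (v6 x1 x2)
theorem h7 (h : In b E x1 x2) : Enc S E (t7 b) (v7 x1 x2) := enc_sqrt hS (h6 h)

def t9 (_b : Bx) : TM := tconst (Nat.div (Nat.mul 1 S) 2) 0 1
noncomputable def v9 (_x1 _x2 : ℝ) : ℝ := ((1 : ℕ) : ℝ) / ((2 : ℕ) : ℝ)
theorem h9 (_h : In b E x1 x2) : Enc S E (t9 b) (v9 x1 x2) := enc_rat E 1 (by norm_num)

def t10 (b : Bx) : TM := tscale 1 2 (t7 b)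
noncomputable def v10 (x1 x2 : ℝ) : ℝ := ((1 : ℕ) : ℝ) / ((2 : ℕ) : ℝ) * v7 x1 x2
theorem h10 (h : In b E x1 x2) : Enc S E (t10 b) (v10 x1 x2) := enc_scale 1 (by norm_num) (h7 h)

def t11 (b : Bx) : TM := tmul S (t0 b) (t3 b)
noncomputable def v11 (x1 x2 : ℝ) : ℝ := v0 x1 x2 * v3 x1 x2
theorem h11 (h : In b E x1 x2) : Enc S E (t11 b) (v11 x1 x2) := enc_mul hS (h0 h) (h3 h)

def t12 (b : Bx) : TM := tsub (t10 b) (t11 b)
noncomputable def v12 (x1 x2 : ℝ) : ℝ := v10 x1 x2 - v11 x1 x2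
theorem h12 (h : In b E x1 x2) : Enc S E (t12 b) (v12 x1 x2) := enc_sub (h10 h) (h11 h)

def t13 (b : Bx) : TM := tscale 1 2 (t0 b)
noncomputable def v13 (x1 x2 : ℝ) : ℝ := ((1 : ℕ) : ℝ) / ((2 : ℕ) : ℝ) * v0 x1 x2
theorem h13 (h : In b E x1 x2) : Enc S E (t13 b) (v13 x1 x2) := enc_scale 1 (by norm_num) (h0 h)

def t14 (b : Bx) : TM := tmul S (t7 b) (t3 b)
noncomputable def v14 (x1 x2 : ℝ) : ℝ := v7 x1 x2 * v3 x1 x2
theorem h14 (h : In b E x1 x2) : Enc S E (t14 b) (v14 x1 x2) := enc_mul hS (h7 h) (h3 h)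

def t15 (b : Bx) : TM := tadd (t13 b) (t14 b)
noncomputable def v15 (x1 x2 : ℝ) : ℝ := v13 x1 x2 + v14 x1 x2
theorem h15 (h : In b E x1 x2) : Enc S E (t15 b) (v15 x1 x2) := enc_add (h13 h) (h14 h)

def t20 (b : Bx) : TM := tsub (t1 b) (t12 b)
noncomputable def v20 (x1 x2 : ℝ) : ℝ := v1 x1 x2 - v12 x1 x2
theorem h20 (h : In b E x1 x2) : Enc S E (t20 b) (v20 x1 x2) := enc_sub (h1 h) (h12 h)

def t21 (b : Bx) : TM := tsq S (t1 b)
noncomputable def v21 (x1 x2 : ℝ) : ℝ := (v1 x1 x2) ^ 2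
theorem h21 (h : In b E x1 x2) : Enc S E (t21 b) (v21 x1 x2) := enc_sq hS (h1 h)

def t22 (b : Bx) : TM := tsub (t5 b) (t21 b)
noncomputable def v22 (x1 x2 : ℝ) : ℝ := v5 x1 x2 - v21 x1 x2
theorem h22 (h : In b E x1 x2) : Enc S E (t22 b) (v22 x1 x2) := enc_sub (h5 h) (h21 h)

def t23 (b : Bx) : TM := tsqrt S (t22 b)
noncomputable def v23 (x1 x2 : ℝ) : ℝ := Real.sqrt (v22 x1 x2)
theorem h23 (h : In b E x1 x2) : Enc S E (t23 b) (v23 x1 x2) := enc_sqrt hS (h22 h)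

def t24 (b : Bx) : TM := tadd (t7 b) (t1 b)
noncomputable def v24 (x1 x2 : ℝ) : ℝ := v7 x1 x2 + v1 x1 x2
theorem h24 (h : In b E x1 x2) : Enc S E (t24 b) (v24 x1 x2) := enc_add (h7 h) (h1 h)

def t25 (b : Bx) : TM := tadd (t0 b) (t23 b)
noncomputable def v25 (x1 x2 : ℝ) : ℝ := v0 x1 x2 + v23 x1 x2
theorem h25 (h : In b E x1 x2) : Enc S E (t25 b) (v25 x1 x2) := enc_add (h0 h) (h23 h)

def t26 (b : Bx) : TM := tsub (t12 b) (t1 b)
noncomputable def v26 (x1 x2 : ℝ) : ℝ := v12 x1 x2 - v1 x1 x2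
theorem h26 (h : In b E x1 x2) : Enc S E (t26 b) (v26 x1 x2) := enc_sub (h12 h) (h1 h)

def t27 (b : Bx) : TM := tmul S (t2 b) (t0 b)
noncomputable def v27 (x1 x2 : ℝ) : ℝ := v2 x1 x2 * v0 x1 x2
theorem h27 (h : In b E x1 x2) : Enc S E (t27 b) (v27 x1 x2) := enc_mul hS (h2 h) (h0 h)

def t28 (b : Bx) : TM := tsub (t7 b) (t27 b)
noncomputable def v28 (x1 x2 : ℝ) : ℝ := v7 x1 x2 - v27 x1 x2
theorem h28 (h : In b E x1 x2) : Enc S E (t28 b) (v28 x1 x2) := enc_sub (h7 h) (h27 h)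

def t29 (b : Bx) : TM := tadd (t5 b) (t7 b)
noncomputable def v29 (x1 x2 : ℝ) : ℝ := v5 x1 x2 + v7 x1 x2
theorem h29 (h : In b E x1 x2) : Enc S E (t29 b) (v29 x1 x2) := enc_add (h5 h) (h7 h)

def t30 (b : Bx) : TM := tmul S (t28 b) (t29 b)
noncomputable def v30 (x1 x2 : ℝ) : ℝ := v28 x1 x2 * v29 x1 x2
theorem h30 (h : In b E x1 x2) : Enc S E (t30 b) (v30 x1 x2) := enc_mul hS (h28 h) (h29 h)

def t31 (b : Bx) : TM := tsub (t29 b) (t27 b)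
noncomputable def v31 (x1 x2 : ℝ) : ℝ := v29 x1 x2 - v27 x1 x2
theorem h31 (h : In b E x1 x2) : Enc S E (t31 b) (v31 x1 x2) := enc_sub (h29 h) (h27 h)

def t32 (b : Bx) : TM := tinv S (t31 b)
noncomputable def v32 (x1 x2 : ℝ) : ℝ := (v31 x1 x2)⁻¹
theorem h32 (h : In b E x1 x2) : Enc S E (t32 b) (v32 x1 x2) := enc_inv hS (h31 h)

def t33 (b : Bx) : TM := tmul S (t30 b) (t32 b)
noncomputable def v33 (x1 x2 : ℝ) : ℝ := v30 x1 x2 * v32 x1 x2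
theorem h33 (h : In b E x1 x2) : Enc S E (t33 b) (v33 x1 x2) := enc_mul hS (h30 h) (h32 h)

def t34 (b : Bx) : TM := tsq S (t24 b)
noncomputable def v34 (x1 x2 : ℝ) : ℝ := (v24 x1 x2) ^ 2
theorem h34 (h : In b E x1 x2) : Enc S E (t34 b) (v34 x1 x2) := enc_sq hS (h24 h)

def t35 (_b : Bx) : TM := tconst (Nat.mul 3 S) 0 0
noncomputable def v35 (_x1 _x2 : ℝ) : ℝ := ((3 : ℕ) : ℝ)
theorem h35 (_h : In b E x1 x2) : Enc S E (t35 b) (v35 x1 x2) := enc_nc E 3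

def t36 (b : Bx) : TM := tsub (t35 b) (t34 b)
noncomputable def v36 (x1 x2 : ℝ) : ℝ := v35 x1 x2 - v34 x1 x2
theorem h36 (h : In b E x1 x2) : Enc S E (t36 b) (v36 x1 x2) := enc_sub (h35 h) (h34 h)

def t37 (b : Bx) : TM := tsq S (t25 b)
noncomputable def v37 (x1 x2 : ℝ) : ℝ := (v25 x1 x2) ^ 2
theorem h37 (h : In b E x1 x2) : Enc S E (t37 b) (v37 x1 x2) := enc_sq hS (h25 h)

def t38 (b : Bx) : TM := tsub (t36 b) (t37 b)
noncomputable def v38 (x1 x2 : ℝ) : ℝ := v36 x1 x2 - v37 x1 x2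
theorem h38 (h : In b E x1 x2) : Enc S E (t38 b) (v38 x1 x2) := enc_sub (h36 h) (h37 h)

def t41 (b : Bx) : TM := tadd (t7 b) (t12 b)
noncomputable def v41 (x1 x2 : ℝ) : ℝ := v7 x1 x2 + v12 x1 x2
theorem h41 (h : In b E x1 x2) : Enc S E (t41 b) (v41 x1 x2) := enc_add (h7 h) (h12 h)

def t43 (b : Bx) : TM := tadd (t24 b) (t41 b)
noncomputable def v43 (x1 x2 : ℝ) : ℝ := v24 x1 x2 + v41 x1 x2
theorem h43 (h : In b E x1 x2) : Enc S E (t43 b) (v43 x1 x2) := enc_add (h24 h) (h41 h)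

def t47 (b : Bx) : TM := tadd (t1 b) (t12 b)
noncomputable def v47 (x1 x2 : ℝ) : ℝ := v1 x1 x2 + v12 x1 x2
theorem h47 (h : In b E x1 x2) : Enc S E (t47 b) (v47 x1 x2) := enc_add (h1 h) (h12 h)

def t50 (b : Bx) : TM := tadd (t23 b) (t15 b)
noncomputable def v50 (x1 x2 : ℝ) : ℝ := v23 x1 x2 + v15 x1 x2
theorem h50 (h : In b E x1 x2) : Enc S E (t50 b) (v50 x1 x2) := enc_add (h23 h) (h15 h)

def t51 (b : Bx) : TM := tinv S (t50 b)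
noncomputable def v51 (x1 x2 : ℝ) : ℝ := (v50 x1 x2)⁻¹
theorem h51 (h : In b E x1 x2) : Enc S E (t51 b) (v51 x1 x2) := enc_inv hS (h50 h)

def t52 (b : Bx) : TM := tmul S (t47 b) (t51 b)
noncomputable def v52 (x1 x2 : ℝ) : ℝ := v47 x1 x2 * v51 x1 x2
theorem h52 (h : In b E x1 x2) : Enc S E (t52 b) (v52 x1 x2) := enc_mul hS (h47 h) (h51 h)

def t53 (b : Bx) : TM := tadd (t0 b) (t15 b)
noncomputable def v53 (x1 x2 : ℝ) : ℝ := v0 x1 x2 + v15 x1 x2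
theorem h53 (h : In b E x1 x2) : Enc S E (t53 b) (v53 x1 x2) := enc_add (h0 h) (h15 h)

def t55 (b : Bx) : TM := tadd (t25 b) (t53 b)
noncomputable def v55 (x1 x2 : ℝ) : ℝ := v25 x1 x2 + v53 x1 x2
theorem h55 (h : In b E x1 x2) : Enc S E (t55 b) (v55 x1 x2) := enc_add (h25 h) (h53 h)

def t56 (b : Bx) : TM := tmul S (t52 b) (t55 b)
noncomputable def v56 (x1 x2 : ℝ) : ℝ := v52 x1 x2 * v55 x1 x2
theorem h56 (h : In b E x1 x2) : Enc S E (t56 b) (v56 x1 x2) := enc_mul hS (h52 h) (h55 h)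

def t58 (b : Bx) : TM := tsub (t43 b) (t56 b)
noncomputable def v58 (x1 x2 : ℝ) : ℝ := v43 x1 x2 - v56 x1 x2
theorem h58 (h : In b E x1 x2) : Enc S E (t58 b) (v58 x1 x2) := enc_sub (h43 h) (h56 h)

def t59 (b : Bx) : TM := tinv S (t2 b)
noncomputable def v59 (x1 x2 : ℝ) : ℝ := (v2 x1 x2)⁻¹
theorem h59 (h : In b E x1 x2) : Enc S E (t59 b) (v59 x1 x2) := enc_inv hS (h2 h)

def t60 (b : Bx) : TM := tmul S (t25 b) (t59 b)
noncomputable def v60 (x1 x2 : ℝ) : ℝ := v25 x1 x2 * v59 x1 x2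
theorem h60 (h : In b E x1 x2) : Enc S E (t60 b) (v60 x1 x2) := enc_mul hS (h25 h) (h59 h)

def t61 (b : Bx) : TM := tsub (t60 b) (t24 b)
noncomputable def v61 (x1 x2 : ℝ) : ℝ := v60 x1 x2 - v24 x1 x2
theorem h61 (h : In b E x1 x2) : Enc S E (t61 b) (v61 x1 x2) := enc_sub (h60 h) (h24 h)

def t62 (b : Bx) : TM := tmul S (t24 b) (t61 b)
noncomputable def v62 (x1 x2 : ℝ) : ℝ := v24 x1 x2 * v61 x1 x2
theorem h62 (h : In b E x1 x2) : Enc S E (t62 b) (v62 x1 x2) := enc_mul hS (h24 h) (h61 h)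

def t63 (b : Bx) : TM := tadd (t5 b) (t60 b)
noncomputable def v63 (x1 x2 : ℝ) : ℝ := v5 x1 x2 + v60 x1 x2
theorem h63 (h : In b E x1 x2) : Enc S E (t63 b) (v63 x1 x2) := enc_add (h5 h) (h60 h)

def t64 (b : Bx) : TM := tsub (t63 b) (t24 b)
noncomputable def v64 (x1 x2 : ℝ) : ℝ := v63 x1 x2 - v24 x1 x2
theorem h64 (h : In b E x1 x2) : Enc S E (t64 b) (v64 x1 x2) := enc_sub (h63 h) (h24 h)

def t65 (b : Bx) : TM := tinv S (t64 b)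
noncomputable def v65 (x1 x2 : ℝ) : ℝ := (v64 x1 x2)⁻¹
theorem h65 (h : In b E x1 x2) : Enc S E (t65 b) (v65 x1 x2) := enc_inv hS (h64 h)

def t66 (b : Bx) : TM := tmul S (t62 b) (t65 b)
noncomputable def v66 (x1 x2 : ℝ) : ℝ := v62 x1 x2 * v65 x1 x2
theorem h66 (h : In b E x1 x2) : Enc S E (t66 b) (v66 x1 x2) := enc_mul hS (h62 h) (h65 h)

def t67 (b : Bx) : TM := tmul S (t53 b) (t59 b)
noncomputable def v67 (x1 x2 : ℝ) : ℝ := v53 x1 x2 * v59 x1 x2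
theorem h67 (h : In b E x1 x2) : Enc S E (t67 b) (v67 x1 x2) := enc_mul hS (h53 h) (h59 h)

def t68 (b : Bx) : TM := tmul S (t52 b) (t59 b)
noncomputable def v68 (x1 x2 : ℝ) : ℝ := v52 x1 x2 * v59 x1 x2
theorem h68 (h : In b E x1 x2) : Enc S E (t68 b) (v68 x1 x2) := enc_mul hS (h52 h) (h59 h)

def t69 (b : Bx) : TM := tsub (t67 b) (t41 b)
noncomputable def v69 (x1 x2 : ℝ) : ℝ := v67 x1 x2 - v41 x1 x2
theorem h69 (h : In b E x1 x2) : Enc S E (t69 b) (v69 x1 x2) := enc_sub (h67 h) (h41 h)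

def t70 (b : Bx) : TM := tadd (t68 b) (t5 b)
noncomputable def v70 (x1 x2 : ℝ) : ℝ := v68 x1 x2 + v5 x1 x2
theorem h70 (h : In b E x1 x2) : Enc S E (t70 b) (v70 x1 x2) := enc_add (h68 h) (h5 h)

def t71 (b : Bx) : TM := tmul S (t41 b) (t69 b)
noncomputable def v71 (x1 x2 : ℝ) : ℝ := v41 x1 x2 * v69 x1 x2
theorem h71 (h : In b E x1 x2) : Enc S E (t71 b) (v71 x1 x2) := enc_mul hS (h41 h) (h69 h)

def t72 (b : Bx) : TM := tsub (t24 b) (t60 b)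
noncomputable def v72 (x1 x2 : ℝ) : ℝ := v24 x1 x2 - v60 x1 x2
theorem h72 (h : In b E x1 x2) : Enc S E (t72 b) (v72 x1 x2) := enc_sub (h24 h) (h60 h)

def t73 (b : Bx) : TM := tmul S (t41 b) (t70 b)
noncomputable def v73 (x1 x2 : ℝ) : ℝ := v41 x1 x2 * v70 x1 x2
theorem h73 (h : In b E x1 x2) : Enc S E (t73 b) (v73 x1 x2) := enc_mul hS (h41 h) (h70 h)

def t74 (b : Bx) : TM := tadd (t72 b) (t73 b)
noncomputable def v74 (x1 x2 : ℝ) : ℝ := v72 x1 x2 + v73 x1 x2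
theorem h74 (h : In b E x1 x2) : Enc S E (t74 b) (v74 x1 x2) := enc_add (h72 h) (h73 h)

def t75 (b : Bx) : TM := tadd (t5 b) (t67 b)
noncomputable def v75 (x1 x2 : ℝ) : ℝ := v5 x1 x2 + v67 x1 x2
theorem h75 (h : In b E x1 x2) : Enc S E (t75 b) (v75 x1 x2) := enc_add (h5 h) (h67 h)

def t76 (b : Bx) : TM := tsub (t75 b) (t41 b)
noncomputable def v76 (x1 x2 : ℝ) : ℝ := v75 x1 x2 - v41 x1 x2
theorem h76 (h : In b E x1 x2) : Enc S E (t76 b) (v76 x1 x2) := enc_sub (h75 h) (h41 h)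

def t77 (b : Bx) : TM := tinv S (t76 b)
noncomputable def v77 (x1 x2 : ℝ) : ℝ := (v76 x1 x2)⁻¹
theorem h77 (h : In b E x1 x2) : Enc S E (t77 b) (v77 x1 x2) := enc_inv hS (h76 h)

def t78 (b : Bx) : TM := tmul S (t65 b) (t77 b)
noncomputable def v78 (x1 x2 : ℝ) : ℝ := v65 x1 x2 * v77 x1 x2
theorem h78 (h : In b E x1 x2) : Enc S E (t78 b) (v78 x1 x2) := enc_mul hS (h65 h) (h77 h)

def t79 (b : Bx) : TM := tmul S (t70 b) (t78 b)
noncomputable def v79 (x1 x2 : ℝ) : ℝ := v70 x1 x2 * v78 x1 x2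
theorem h79 (h : In b E x1 x2) : Enc S E (t79 b) (v79 x1 x2) := enc_mul hS (h70 h) (h78 h)

def t82 (b : Bx) : TM := tmul S (t74 b) (t65 b)
noncomputable def v82 (x1 x2 : ℝ) : ℝ := v74 x1 x2 * v65 x1 x2
theorem h82 (h : In b E x1 x2) : Enc S E (t82 b) (v82 x1 x2) := enc_mul hS (h74 h) (h65 h)

def t83 (b : Bx) : TM := tmul S (t71 b) (t79 b)
noncomputable def v83 (x1 x2 : ℝ) : ℝ := v71 x1 x2 * v79 x1 x2
theorem h83 (h : In b E x1 x2) : Enc S E (t83 b) (v83 x1 x2) := enc_mul hS (h71 h) (h79 h)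

def t85 (b : Bx) : TM := tsub (t82 b) (t83 b)
noncomputable def v85 (x1 x2 : ℝ) : ℝ := v82 x1 x2 - v83 x1 x2
theorem h85 (h : In b E x1 x2) : Enc S E (t85 b) (v85 x1 x2) := enc_sub (h82 h) (h83 h)

def t86 (b : Bx) : TM := kx3_t (t24 b) (t25 b)
noncomputable def v86 (x1 x2 : ℝ) : ℝ := kx3_v (v24 x1 x2) (v25 x1 x2)
theorem h86 (h : In b E x1 x2) : Enc S E (t86 b) (v86 x1 x2) := kx3_enc (h24 h) (h25 h)

def t87 (b : Bx) : TM := f1p_t (t25 b)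
noncomputable def v87 (x1 x2 : ℝ) : ℝ := f1p_v (v25 x1 x2)
theorem h87 (h : In b E x1 x2) : Enc S E (t87 b) (v87 x1 x2) := f1p_enc (h25 h)

def t88 (b : Bx) : TM := tsub (t24 b) (t87 b)
noncomputable def v88 (x1 x2 : ℝ) : ℝ := v24 x1 x2 - v87 x1 x2
theorem h88 (h : In b E x1 x2) : Enc S E (t88 b) (v88 x1 x2) := enc_sub (h24 h) (h87 h)

def t89 (b : Bx) : TM := tmul S (t38 b) (t86 b)
noncomputable def v89 (x1 x2 : ℝ) : ℝ := v38 x1 x2 * v86 x1 x2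
theorem h89 (h : In b E x1 x2) : Enc S E (t89 b) (v89 x1 x2) := enc_mul hS (h38 h) (h86 h)

def t90 (b : Bx) : TM := tadd (t66 b) (t89 b)
noncomputable def v90 (x1 x2 : ℝ) : ℝ := v66 x1 x2 + v89 x1 x2
theorem h90 (h : In b E x1 x2) : Enc S E (t90 b) (v90 x1 x2) := enc_add (h66 h) (h89 h)

def t91 (b : Bx) : TM := tmul S (t58 b) (t86 b)
noncomputable def v91 (x1 x2 : ℝ) : ℝ := v58 x1 x2 * v86 x1 x2
theorem h91 (h : In b E x1 x2) : Enc S E (t91 b) (v91 x1 x2) := enc_mul hS (h58 h) (h86 h)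

def t92 (b : Bx) : TM := tadd (t85 b) (t91 b)
noncomputable def v92 (x1 x2 : ℝ) : ℝ := v85 x1 x2 + v91 x1 x2
theorem h92 (h : In b E x1 x2) : Enc S E (t92 b) (v92 x1 x2) := enc_add (h85 h) (h91 h)

def t93 (b : Bx) : TM := tmul S (t7 b) (t23 b)
noncomputable def v93 (x1 x2 : ℝ) : ℝ := v7 x1 x2 * v23 x1 x2
theorem h93 (h : In b E x1 x2) : Enc S E (t93 b) (v93 x1 x2) := enc_mul hS (h7 h) (h23 h)

def t94 (b : Bx) : TM := tmul S (t1 b) (t0 b)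
noncomputable def v94 (x1 x2 : ℝ) : ℝ := v1 x1 x2 * v0 x1 x2
theorem h94 (h : In b E x1 x2) : Enc S E (t94 b) (v94 x1 x2) := enc_mul hS (h1 h) (h0 h)

def t95 (b : Bx) : TM := tsub (t93 b) (t94 b)
noncomputable def v95 (x1 x2 : ℝ) : ℝ := v93 x1 x2 - v94 x1 x2
theorem h95 (h : In b E x1 x2) : Enc S E (t95 b) (v95 x1 x2) := enc_sub (h93 h) (h94 h)

def t96 (b : Bx) : TM := tmul S (t95 b) (t59 b)
noncomputable def v96 (x1 x2 : ℝ) : ℝ := v95 x1 x2 * v59 x1 x2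
theorem h96 (h : In b E x1 x2) : Enc S E (t96 b) (v96 x1 x2) := enc_mul hS (h95 h) (h59 h)

def t97 (b : Bx) : TM := tsub (t96 b) (t9 b)
noncomputable def v97 (x1 x2 : ℝ) : ℝ := v96 x1 x2 - v9 x1 x2
theorem h97 (h : In b E x1 x2) : Enc S E (t97 b) (v97 x1 x2) := enc_sub (h96 h) (h9 h)

def t99 (b : Bx) : TM := tmul S (t7 b) (t52 b)
noncomputable def v99 (x1 x2 : ℝ) : ℝ := v7 x1 x2 * v52 x1 x2
theorem h99 (h : In b E x1 x2) : Enc S E (t99 b) (v99 x1 x2) := enc_mul hS (h7 h) (h52 h)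

def t101 (b : Bx) : TM := tneg (t0 b)
noncomputable def v101 (x1 x2 : ℝ) : ℝ := -(v0 x1 x2)
theorem h101 (h : In b E x1 x2) : Enc S E (t101 b) (v101 x1 x2) := enc_neg (h0 h)

def t103 (b : Bx) : TM := tadd (t99 b) (t0 b)
noncomputable def v103 (x1 x2 : ℝ) : ℝ := v99 x1 x2 + v0 x1 x2
theorem h103 (h : In b E x1 x2) : Enc S E (t103 b) (v103 x1 x2) := enc_add (h99 h) (h0 h)

def t105 (b : Bx) : TM := tmul S (t103 b) (t59 b)
noncomputable def v105 (x1 x2 : ℝ) : ℝ := v103 x1 x2 * v59 x1 x2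
theorem h105 (h : In b E x1 x2) : Enc S E (t105 b) (v105 x1 x2) := enc_mul hS (h103 h) (h59 h)

def t107 (b : Bx) : TM := tsub (t23 b) (t3 b)
noncomputable def v107 (x1 x2 : ℝ) : ℝ := v23 x1 x2 - v3 x1 x2
theorem h107 (h : In b E x1 x2) : Enc S E (t107 b) (v107 x1 x2) := enc_sub (h23 h) (h3 h)

def t108 (b : Bx) : TM := tsub (t25 b) (t2 b)
noncomputable def v108 (x1 x2 : ℝ) : ℝ := v25 x1 x2 - v2 x1 x2
theorem h108 (h : In b E x1 x2) : Enc S E (t108 b) (v108 x1 x2) := enc_sub (h25 h) (h2 h)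

def t118 (b : Bx) : TM := tsub (t15 b) (t3 b)
noncomputable def v118 (x1 x2 : ℝ) : ℝ := v15 x1 x2 - v3 x1 x2
theorem h118 (h : In b E x1 x2) : Enc S E (t118 b) (v118 x1 x2) := enc_sub (h15 h) (h3 h)

def t119 (b : Bx) : TM := tmul S (t52 b) (t33 b)
noncomputable def v119 (x1 x2 : ℝ) : ℝ := v52 x1 x2 * v33 x1 x2
theorem h119 (h : In b E x1 x2) : Enc S E (t119 b) (v119 x1 x2) := enc_mul hS (h52 h) (h33 h)

def t120 (b : Bx) : TM := tsub (t101 b) (t119 b)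
noncomputable def v120 (x1 x2 : ℝ) : ℝ := v101 x1 x2 - v119 x1 x2
theorem h120 (h : In b E x1 x2) : Enc S E (t120 b) (v120 x1 x2) := enc_sub (h101 h) (h119 h)

def t122 (b : Bx) : TM := tmul S (t52 b) (t1 b)
noncomputable def v122 (x1 x2 : ℝ) : ℝ := v52 x1 x2 * v1 x1 x2
theorem h122 (h : In b E x1 x2) : Enc S E (t122 b) (v122 x1 x2) := enc_mul hS (h52 h) (h1 h)

def t123 (b : Bx) : TM := tsub (t2 b) (t53 b)
noncomputable def v123 (x1 x2 : ℝ) : ℝ := v2 x1 x2 - v53 x1 x2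
theorem h123 (h : In b E x1 x2) : Enc S E (t123 b) (v123 x1 x2) := enc_sub (h2 h) (h53 h)

def t124 (b : Bx) : TM := tadd (t122 b) (t123 b)
noncomputable def v124 (x1 x2 : ℝ) : ℝ := v122 x1 x2 + v123 x1 x2
theorem h124 (h : In b E x1 x2) : Enc S E (t124 b) (v124 x1 x2) := enc_add (h122 h) (h123 h)

def t125 (b : Bx) : TM := tmul S (t52 b) (t90 b)
noncomputable def v125 (x1 x2 : ℝ) : ℝ := v52 x1 x2 * v90 x1 x2
theorem h125 (h : In b E x1 x2) : Enc S E (t125 b) (v125 x1 x2) := enc_mul hS (h52 h) (h90 h)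

def t126 (b : Bx) : TM := tsub (t124 b) (t125 b)
noncomputable def v126 (x1 x2 : ℝ) : ℝ := v124 x1 x2 - v125 x1 x2
theorem h126 (h : In b E x1 x2) : Enc S E (t126 b) (v126 x1 x2) := enc_sub (h124 h) (h125 h)

def t127 (b : Bx) : TM := tmul S (t118 b) (t92 b)
noncomputable def v127 (x1 x2 : ℝ) : ℝ := v118 x1 x2 * v92 x1 x2
theorem h127 (h : In b E x1 x2) : Enc S E (t127 b) (v127 x1 x2) := enc_mul hS (h118 h) (h92 h)

def t128 (b : Bx) : TM := tsub (t126 b) (t127 b)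
noncomputable def v128 (x1 x2 : ℝ) : ℝ := v126 x1 x2 - v127 x1 x2
theorem h128 (h : In b E x1 x2) : Enc S E (t128 b) (v128 x1 x2) := enc_sub (h126 h) (h127 h)

def t129 (b : Bx) : TM := tmul S (t0 b) (t92 b)
noncomputable def v129 (x1 x2 : ℝ) : ℝ := v0 x1 x2 * v92 x1 x2
theorem h129 (h : In b E x1 x2) : Enc S E (t129 b) (v129 x1 x2) := enc_mul hS (h0 h) (h92 h)

def t130 (b : Bx) : TM := tsub (t129 b) (t119 b)
noncomputable def v130 (x1 x2 : ℝ) : ℝ := v129 x1 x2 - v119 x1 x2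
theorem h130 (h : In b E x1 x2) : Enc S E (t130 b) (v130 x1 x2) := enc_sub (h129 h) (h119 h)

def t131 (b : Bx) : TM := tsub (t2 b) (t25 b)
noncomputable def v131 (x1 x2 : ℝ) : ℝ := v2 x1 x2 - v25 x1 x2
theorem h131 (h : In b E x1 x2) : Enc S E (t131 b) (v131 x1 x2) := enc_sub (h2 h) (h25 h)

def t132 (b : Bx) : TM := qw_t (t0 b) (t107 b) (t131 b) (t105 b) (t120 b) (t128 b) (t130 b)
noncomputable def v132 (x1 x2 : ℝ) : ℝ := qw_v (v0 x1 x2) (v107 x1 x2) (v131 x1 x2) (v105 x1 x2) (v120 x1 x2) (v128 x1 x2) (v130 x1 x2)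
theorem h132 (h : In b E x1 x2) : Enc S E (t132 b) (v132 x1 x2) := qw_enc (h0 h) (h107 h) (h131 h) (h105 h) (h120 h) (h128 h) (h130 h)

def t133 (b : Bx) : TM := tscale 1 4 (t2 b)
noncomputable def v133 (x1 x2 : ℝ) : ℝ := ((1 : ℕ) : ℝ) / ((4 : ℕ) : ℝ) * v2 x1 x2
theorem h133 (h : In b E x1 x2) : Enc S E (t133 b) (v133 x1 x2) := enc_scale 1 (by norm_num) (h2 h)

def t135 (b : Bx) : TM := tsub (t0 b) (t133 b)
noncomputable def v135 (x1 x2 : ℝ) : ℝ := v0 x1 x2 - v133 x1 x2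
theorem h135 (h : In b E x1 x2) : Enc S E (t135 b) (v135 x1 x2) := enc_sub (h0 h) (h133 h)

def t136 (b : Bx) : TM := tsub (t3 b) (t23 b)
noncomputable def v136 (x1 x2 : ℝ) : ℝ := v3 x1 x2 - v23 x1 x2
theorem h136 (h : In b E x1 x2) : Enc S E (t136 b) (v136 x1 x2) := enc_sub (h3 h) (h23 h)

def t137 (b : Bx) : TM := tscale 3 4 (t2 b)
noncomputable def v137 (x1 x2 : ℝ) : ℝ := ((3 : ℕ) : ℝ) / ((4 : ℕ) : ℝ) * v2 x1 x2
theorem h137 (h : In b E x1 x2) : Enc S E (t137 b) (v137 x1 x2) := enc_scale 3 (by norm_num) (h2 h)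

def t139 (b : Bx) : TM := tsub (t23 b) (t137 b)
noncomputable def v139 (x1 x2 : ℝ) : ℝ := v23 x1 x2 - v137 x1 x2
theorem h139 (h : In b E x1 x2) : Enc S E (t139 b) (v139 x1 x2) := enc_sub (h23 h) (h137 h)

def t141 (b : Bx) : TM := tsub (t137 b) (t25 b)
noncomputable def v141 (x1 x2 : ℝ) : ℝ := v137 x1 x2 - v25 x1 x2
theorem h141 (h : In b E x1 x2) : Enc S E (t141 b) (v141 x1 x2) := enc_sub (h137 h) (h25 h)

def t142 (_b : Bx) : TM := tconst (Nat.div (Nat.mul 1 S) 16) 0 1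
noncomputable def v142 (_x1 _x2 : ℝ) : ℝ := ((1 : ℕ) : ℝ) / ((16 : ℕ) : ℝ)
theorem h142 (_h : In b E x1 x2) : Enc S E (t142 b) (v142 x1 x2) := enc_rat E 1 (by norm_num)

def t143 (b : Bx) : TM := tsub (t26 b) (t142 b)
noncomputable def v143 (x1 x2 : ℝ) : ℝ := v26 x1 x2 - v142 x1 x2
theorem h143 (h : In b E x1 x2) : Enc S E (t143 b) (v143 x1 x2) := enc_sub (h26 h) (h142 h)

def t144 (b : Bx) : TM := tsub (t20 b) (t142 b)
noncomputable def v144 (x1 x2 : ℝ) : ℝ := v20 x1 x2 - v142 x1 x2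
theorem h144 (h : In b E x1 x2) : Enc S E (t144 b) (v144 x1 x2) := enc_sub (h20 h) (h142 h)

def t145 (b : Bx) : TM := tsub (t37 b) (t36 b)
noncomputable def v145 (x1 x2 : ℝ) : ℝ := v37 x1 x2 - v36 x1 x2
theorem h145 (h : In b E x1 x2) : Enc S E (t145 b) (v145 x1 x2) := enc_sub (h37 h) (h36 h)

def t146 (b : Bx) : TM := tadd (t97 b) (t9 b)
noncomputable def v146 (x1 x2 : ℝ) : ℝ := v97 x1 x2 + v9 x1 x2
theorem h146 (h : In b E x1 x2) : Enc S E (t146 b) (v146 x1 x2) := enc_add (h97 h) (h9 h)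

def t147 (b : Bx) : TM := tneg (t146 b)
noncomputable def v147 (x1 x2 : ℝ) : ℝ := -(v146 x1 x2)
theorem h147 (h : In b E x1 x2) : Enc S E (t147 b) (v147 x1 x2) := enc_neg (h146 h)

def g0 (b : Bx) : Bool := and (pos (t58 b)) (and (pos (t22 b)) (and (pos (t50 b)) (and (pos (t64 b)) (and (pos (t76 b)) (and (pos (t88 b)) (and (pos (t31 b)) (or (pos (t20 b)) (pos (t132 b)))))))))

def l0 (b : Bx) : Nat := cond (g0 b) 0 (pickb 1 (t132 b) b)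

def P0 (x1 x2 : ℝ) : Prop := 0 < v58 x1 x2 ∧ 0 < v22 x1 x2 ∧ 0 < v50 x1 x2 ∧ 0 < v64 x1 x2 ∧ 0 < v76 x1 x2 ∧ 0 < v88 x1 x2 ∧ 0 < v31 x1 x2 ∧ (0 < v20 x1 x2 ∨ 0 < v132 x1 x2)

theorem l0_sound (h : In b E x1 x2) (e : l0 b = 0) : P0 x1 x2 := by
  have e1 : g0 b = true := by
    rcases e2 : g0 b with _ | _
    · unfold l0 at e; rw [e2, cond_false] at e; exact absurd e (pickb_ne _ _ _)
    · rfl
  exact ⟨pos_sound hS (h58 h) (Bool.and_eq_true_iff.mp e1).1, ⟨pos_sound hS (h22 h) (Bool.and_eq_true_iff.mp (Bool.and_eq_true_iff.mp e1).2).1, ⟨pos_sound hS (h50 h) (Bool.and_eq_true_iff.mp (Bool.and_eq_true_iff.mp (Bool.and_eq_true_iff.mp e1).2).2).1, ⟨pos_sound hS (h64 h) (Bool.and_eq_true_iff.mp (Bool.and_eq_true_iff.mp (Bool.and_eq_true_iff.mp (Bool.and_eq_true_iff.mp e1).2).2).2).1, ⟨pos_sound hS (h76 h) (Bool.and_eq_true_iff.mp (Bool.and_eq_true_iff.mp (Bool.and_eq_true_iff.mp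 (Bool.and_eq_true_iff.mp (Bool.and_eq_true_iff.mp e1).2).2).2).2).1, ⟨pos_sound hS (h88 h) (Bool.and_eq_true_iff.mp (Bool.and_eq_true_iff.mp (Bool.and_eq_true_iff.mp (Bool.and_eq_true_iff.mp (Bool.and_eq_true_iff.mp (Bool.and_eq_true_iff.mp e1).2).2).2).2).2).1, ⟨pos_sound hS (h31 h) (Bool.and_eq_true_iff.mp (Bool.and_eq_true_iff.mp (Bool.and_eq_true_iff.mp (Bool.and_eq_true_iff.mp (Bool.and_eq_true_iff.mp (Bool.and_eq_true_iff.mp (Bool.and_eq_true_iff.mp e1).2).2).2).2).2).2).1, ((Bool.or_eq_true_iff.mp (Bool.and_eq_true_iff.mp (Bool.and_eq_true_iff.mp (Bool.and_eq_true_iff.mp (Bool.and_eq_true_iff.mp (Bool.and_eq_true_iff.mp (Bool.and_eq_true_iff.mp (Bool.and_eq_true_iff.mp e1).2).2).2).2).2).2).2).imp (fun a => pos_sound hS (h20 h) a) (fun a => pos_sound hS (h132 h) a))⟩⟩⟩⟩⟩⟩⟩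

def g1 (b : Bx) : Bool := or (pos (t135 b)) (or (pos (t136 b)) (or (pos (t139 b)) (or (pos (t141 b)) (or (pos (t143 b)) (or (pos (t144 b)) (or (pos (t108 b)) (or (pos (t145 b)) (pos (t147 b)))))))))

def l1 (b : Bx) : Nat := cond (g1 b) 0 (l0 b)

def P1 (x1 x2 : ℝ) : Prop := (0 < v135 x1 x2 ∨ 0 < v136 x1 x2 ∨ 0 < v139 x1 x2 ∨ 0 < v141 x1 x2 ∨ 0 < v143 x1 x2 ∨ 0 < v144 x1 x2 ∨ 0 < v108 x1 x2 ∨ 0 < v145 x1 x2 ∨ 0 < v147 x1 x2) ∨ (P0 x1 x2)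

theorem l1_sound (h : In b E x1 x2) (e : l1 b = 0) : P1 x1 x2 := by
  unfold l1 at e
  rcases e1 : g1 b with _ | _
  · rw [e1, cond_false] at e
    have z0 : l0 b = 0 := e
    exact Or.inr (l0_sound h z0)
  · exact Or.inl (((Bool.or_eq_true_iff.mp e1).imp (fun a => pos_sound hS (h135 h) a) (fun a => ((Bool.or_eq_true_iff.mp a).imp (fun a => pos_sound hS (h136 h) a) (fun a => ((Bool.or_eq_true_iff.mp a).imp (fun a => pos_sound hS (h139 h) a) (fun a => ((Bool.or_eq_true_iff.mp a).imp (fun a => pos_sound hS (h141 h) a) (fun a => ((Bool.or_eq_true_iff.mp a).imp (fun a => pos_sound hS (h143 h) a) (fun a => ((Bool.or_eq_true_iff.mp a).imp (fun a => pos_sound hS (h144 h) a) (fun a => ((Bool.or_eq_true_iff.mp a).imp (fun a => pos_sound hS (h108 h) a) (fun a => ((Bool.or_eq_true_iff.mp a).imp (fun a => pos_sound hS (h145 h) a) (fun a => pos_sound hS (h147 h) a)))))))))))))))))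

def f (b : Bx) : Nat := l1 b

/-- the statement -/
def Q (x1 x2 : ℝ) : Prop := P1 x1 x2

theorem f_sound (b : Bx) (hb : f b = 0) (x1 x2 : ℝ) (hm : Mem S b x1 x2) : Q x1 x2 := by
  obtain ⟨E, h⟩ := pt_of_mem hm
  have h : In b E x1 x2 := h
  unfold f at hb
  have e := hb
  have z1 : l1 b = 0 := e
  exact (l1_sound h z1)

/-- the box -/
def b0 : Bx := ⟨232471924, 0, 232471926, 268435456, 0, 268435457⟩

theorem chk_all {n : ℕ} {b : Bx} (h : chk f n b = true) (x1 x2 : ℝ) (hm : Mem S b x1 x2) : Q x1 x2 :=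
  chk_sound (fun b hb x1 x2 hm => f_sound b hb x1 x2 hm) n b h x1 x2 hm


end Pool.Agent.Strip051.LB.ChA00V1_pp_023
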