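import Pool.Agent.Strip051.LB.ChA00V1_pp_023.Defs
import Pool.Agent.Strip051.LB.Slope
import Pool.Agent.Strip051.LB.Star
import Pool.Agent.Strip051.LB.Cf

/-! # LINE tight chart ChA00V1_pp_023: slopes -/

namespace Pool.Agent.Strip051.LB.ChA00V1_pp_023

open Pool.Agent.Strip051.LB Pool.Agent.Strip051.LB.Fn Pool.Agent.Strip051.LB.Fc Pool.Agent.StripNear

set_option maxRecDepth 100000
set_option linter.all false

noncomputable def v40 (x1 x2 : ℝ) : ℝ := -(v5 x1 x2)

noncomputable def v42 (x1 x2 : ℝ) : ℝ := (v41 x1 x2) ^ 2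

noncomputable def v44 (x1 x2 : ℝ) : ℝ := -(v43 x1 x2)

noncomputable def v45 (x1 x2 : ℝ) : ℝ := v35 x1 x2 - v42 x1 x2

noncomputable def v46 (x1 x2 : ℝ) : ℝ := (v12 x1 x2) ^ 2

noncomputable def v48 (x1 x2 : ℝ) : ℝ := -(v47 x1 x2)

noncomputable def v49 (x1 x2 : ℝ) : ℝ := v5 x1 x2 - v46 x1 x2

noncomputable def v54 (x1 x2 : ℝ) : ℝ := (v53 x1 x2) ^ 2

noncomputable def v57 (x1 x2 : ℝ) : ℝ := v45 x1 x2 - v54 x1 x2

noncomputable def v80 (x1 x2 : ℝ) : ℝ := -(v79 x1 x2)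

noncomputable def v81 (x1 x2 : ℝ) : ℝ := v71 x1 x2 * v77 x1 x2

noncomputable def v98 (x1 x2 : ℝ) : ℝ := v7 x1 x2 * v15 x1 x2

noncomputable def v100 (x1 x2 : ℝ) : ℝ := v12 x1 x2 * v0 x1 x2

noncomputable def v102 (x1 x2 : ℝ) : ℝ := v98 x1 x2 - v100 x1 x2

noncomputable def v104 (x1 x2 : ℝ) : ℝ := v102 x1 x2 * v59 x1 x2

noncomputable def v106 (x1 x2 : ℝ) : ℝ := v104 x1 x2 - v9 x1 x2

noncomputable def v121 (x1 x2 : ℝ) : ℝ := v53 x1 x2 - v2 x1 x2

structure Cx (x1 x2 : ℝ) : Prop where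
  hc : v7 x1 x2 ^ 2 + x1 ^ 2 = 1
  p22 : 0 < v22 x1 x2
  p50 : 0 < v50 x1 x2
  p64 : 0 < v64 x1 x2
  p76 : 0 < v76 x1 x2
  p88 : 0 < v88 x1 x2
  p31 : 0 < v31 x1 x2

variable {x1 x2 : ℝ}

theorem s3q (x1 x2 : ℝ) : v2 x1 x2 ^ 2 = 3 := by
  rw [v2]; exact s3sq

theorem s3ne (x1 x2 : ℝ) : v2 x1 x2 ≠ 0 := by
  rw [v2]; positivity

theorem s1 (c : Cx x1 x2) : v1 x1 x2 = v12 x1 x2 + v26 x1 x2 * v40 x1 x2 := by
  simp only [v1, v5, v10, v12, v26, v40]
  (try push_cast)
  first | ring | grind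

theorem s21 (c : Cx x1 x2) : v21 x1 x2 = v46 x1 x2 + v26 x1 x2 * v48 x1 x2 := by
  have a0 : (v1 x1 x2 + v12 x1 x2) * v1 x1 x2 = (v1 x1 x2 + v12 x1 x2) * (v12 x1 x2 + v26 x1 x2 * v40 x1 x2) := congrArg (fun z => (v1 x1 x2 + v12 x1 x2) * z) (s1 c)
  try simp only [v1, v5, v10, v12, v21, v26, v40, v46, v47, v48] at a0
  simp only [v1, v5, v10, v12, v21, v26, v40, v46, v47, v48]
  (try push_cast at a0 ⊢)
  first | linear_combination a0 | ring | grind

theorem s22 (c : Cx x1 x2) : v22 x1 x2 = v49 x1 x2 + v26 x1 x2 * v47 x1 x2 := by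
  have a1 := s21 c
  try simp only [v1, v5, v10, v12, v22, v26, v47, v48, v49] at a1
  simp only [v1, v5, v10, v12, v22, v26, v47, v48, v49]
  (try push_cast at a1 ⊢)
  first | linear_combination -a1 | ring | grind

theorem q23 (c : Cx x1 x2) : v49 x1 x2 = v15 x1 x2 ^ 2 := by
  have hc := c.hc
  have h3 := s3q x1 x2
  simp only [v0, v3, v5, v10, v11, v12, v13, v14, v15, v46, v49] at hc ⊢
  push_cast at hc ⊢
  grind

theorem s23 (c : Cx x1 x2) : v23 x1 x2 = v15 x1 x2 + v26 x1 x2 * v52 x1 x2 := by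
  have a0 := s22 c
  have e : 0 < Real.sqrt (v22 x1 x2) + v15 x1 x2 := by
    have e := c.p50
    simp only [v0, v5, v13, v15, v22, v23, v50] at e ⊢
    push_cast at e ⊢
    linarith
  have b := sl_sqrt a0 (q23 c) (le_of_lt c.p22) e
  clear a0
  try simp only [v0, v1, v5, v10, v12, v13, v15, v22, v23, v26, v47, v49, v50, v51, v52] at b
  simp only [v0, v1, v5, v10, v12, v13, v15, v22, v23, v26, v47, v49, v50, v51, v52]
  (try push_cast at b ⊢)
  first | linear_combination b | ring | grind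

theorem s24 (c : Cx x1 x2) : v24 x1 x2 = v41 x1 x2 + v26 x1 x2 * v40 x1 x2 := by
  have a1 := s1 c
  try simp only [v1, v5, v10, v12, v24, v26, v40, v41] at a1
  simp only [v1, v5, v10, v12, v24, v26, v40, v41]
  (try push_cast at a1 ⊢)
  first | linear_combination a1 | ring | grind

theorem s25 (c : Cx x1 x2) : v25 x1 x2 = v53 x1 x2 + v26 x1 x2 * v52 x1 x2 := by
  have a1 := s23 c
  try simp only [v0, v1, v10, v12, v13, v15, v25, v26, v53] at a1
  simp only [v0, v1, v10, v12, v13, v15, v25, v26, v53]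
  (try push_cast at a1 ⊢)
  first | linear_combination a1 | ring | grind

theorem s34 (c : Cx x1 x2) : v34 x1 x2 = v42 x1 x2 + v26 x1 x2 * v44 x1 x2 := by
  have a0 : (v24 x1 x2 + v41 x1 x2) * v24 x1 x2 = (v24 x1 x2 + v41 x1 x2) * (v41 x1 x2 + v26 x1 x2 * v40 x1 x2) := congrArg (fun z => (v24 x1 x2 + v41 x1 x2) * z) (s24 c)
  try simp only [v1, v5, v10, v12, v24, v26, v34, v40, v41, v42, v43, v44] at a0
  simp only [v1, v5, v10, v12, v24, v26, v34, v40, v41, v42, v43, v44]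
  (try push_cast at a0 ⊢)
  first | linear_combination a0 | ring | grind

theorem s36 (c : Cx x1 x2) : v36 x1 x2 = v45 x1 x2 + v26 x1 x2 * v43 x1 x2 := by
  have a1 := s34 c
  try simp only [v1, v10, v12, v24, v26, v35, v36, v41, v43, v44, v45] at a1
  simp only [v1, v10, v12, v24, v26, v35, v36, v41, v43, v44, v45]
  (try push_cast at a1 ⊢)
  first | linear_combination -a1 | ring | grind

theorem s37 (c : Cx x1 x2) : v37 x1 x2 = v54 x1 x2 + v26 x1 x2 * v56 x1 x2 := by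
  have a0 : (v25 x1 x2 + v53 x1 x2) * v25 x1 x2 = (v25 x1 x2 + v53 x1 x2) * (v53 x1 x2 + v26 x1 x2 * v52 x1 x2) := congrArg (fun z => (v25 x1 x2 + v53 x1 x2) * z) (s25 c)
  try simp only [v0, v1, v10, v12, v13, v15, v25, v26, v37, v53, v54, v55, v56] at a0
  simp only [v0, v1, v10, v12, v13, v15, v25, v26, v37, v53, v54, v55, v56]
  (try push_cast at a0 ⊢)
  first | linear_combination a0 | ring | grind

theorem s38 (c : Cx x1 x2) : v38 x1 x2 = v57 x1 x2 + v26 x1 x2 * v58 x1 x2 := by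
  have a0 := s36 c
  have a1 := s37 c
  try simp only [v1, v10, v12, v24, v26, v35, v36, v38, v41, v43, v45, v57, v58] at a0
  try simp only [v1, v10, v12, v24, v26, v35, v36, v38, v41, v43, v45, v57, v58] at a1
  simp only [v1, v10, v12, v24, v26, v35, v36, v38, v41, v43, v45, v57, v58]
  (try push_cast at a0 a1 ⊢)
  first | linear_combination a0 - a1 | ring | grind

theorem s60 (c : Cx x1 x2) : v60 x1 x2 = v67 x1 x2 + v26 x1 x2 * v68 x1 x2 := by
  have a0 : (v59 x1 x2) * v25 x1 x2 = (v59 x1 x2) * (v53 x1 x2 + v26 x1 x2 * v52 x1 x2) := congrArg (fun z => (v59 x1 x2) * z) (s25 c)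
  try simp only [v0, v1, v10, v12, v13, v15, v25, v26, v53, v60, v67, v68] at a0
  simp only [v0, v1, v10, v12, v13, v15, v25, v26, v53, v60, v67, v68]
  (try push_cast at a0 ⊢)
  first | linear_combination a0 | ring | grind

theorem s61 (c : Cx x1 x2) : v61 x1 x2 = v69 x1 x2 + v26 x1 x2 * v70 x1 x2 := by
  have a0 := s60 c
  have a1 := s24 c
  try simp only [v1, v5, v10, v12, v24, v26, v40, v41, v61, v69, v70] at a0
  try simp only [v1, v5, v10, v12, v24, v26, v40, v41, v61, v69, v70] at a1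
  simp only [v1, v5, v10, v12, v24, v26, v40, v41, v61, v69, v70]
  (try push_cast at a0 a1 ⊢)
  first | linear_combination a0 - a1 | ring | grind

theorem s62 (c : Cx x1 x2) : v62 x1 x2 = v71 x1 x2 + v26 x1 x2 * v74 x1 x2 := by
  have a0 : (v61 x1 x2) * v24 x1 x2 = (v61 x1 x2) * (v41 x1 x2 + v26 x1 x2 * v40 x1 x2) := congrArg (fun z => (v61 x1 x2) * z) (s24 c)
  have a1 : (v41 x1 x2) * v61 x1 x2 = (v41 x1 x2) * (v69 x1 x2 + v26 x1 x2 * v70 x1 x2) := congrArg (fun z => (v41 x1 x2) * z) (s61 c)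
  try simp only [v1, v5, v10, v12, v24, v26, v40, v41, v61, v62, v69, v70, v71, v72, v73, v74] at a0
  try simp only [v1, v5, v10, v12, v24, v26, v40, v41, v61, v62, v69, v70, v71, v72, v73, v74] at a1
  simp only [v1, v5, v10, v12, v24, v26, v40, v41, v61, v62, v69, v70, v71, v72, v73, v74]
  (try push_cast at a0 a1 ⊢)
  first | linear_combination a0 + a1 | ring | grind

theorem s63 (c : Cx x1 x2) : v63 x1 x2 = v75 x1 x2 + v26 x1 x2 * v68 x1 x2 := by
  have a1 := s60 c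
  try simp only [v1, v5, v10, v12, v26, v63, v75] at a1
  simp only [v1, v5, v10, v12, v26, v63, v75]
  (try push_cast at a1 ⊢)
  first | linear_combination a1 | ring | grind

theorem s64 (c : Cx x1 x2) : v64 x1 x2 = v76 x1 x2 + v26 x1 x2 * v70 x1 x2 := by
  have a0 := s63 c
  have a1 := s24 c
  try simp only [v1, v5, v10, v12, v24, v26, v40, v41, v63, v64, v70, v75, v76] at a0
  try simp only [v1, v5, v10, v12, v24, v26, v40, v41, v63, v64, v70, v75, v76] at a1
  simp only [v1, v5, v10, v12, v24, v26, v40, v41, v63, v64, v70, v75, v76]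
  (try push_cast at a0 a1 ⊢)
  first | linear_combination a0 - a1 | ring | grind

theorem s65 (c : Cx x1 x2) : v65 x1 x2 = v77 x1 x2 + v26 x1 x2 * v80 x1 x2 := by
  have a0 := s64 c
  have b := sl_inv a0 (c.p64).ne' (c.p76).ne'
  clear a0
  try simp only [v1, v5, v10, v12, v24, v26, v41, v63, v64, v65, v70, v75, v76, v77, v78, v79, v80] at b
  simp only [v1, v5, v10, v12, v24, v26, v41, v63, v64, v65, v70, v75, v76, v77, v78, v79, v80]
  (try push_cast at b ⊢)
  first | linear_combination b | ring | grind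

theorem s66 (c : Cx x1 x2) : v66 x1 x2 = v81 x1 x2 + v26 x1 x2 * v85 x1 x2 := by
  have a0 : (v65 x1 x2) * v62 x1 x2 = (v65 x1 x2) * (v71 x1 x2 + v26 x1 x2 * v74 x1 x2) := congrArg (fun z => (v65 x1 x2) * z) (s62 c)
  have a1 : (v71 x1 x2) * v65 x1 x2 = (v71 x1 x2) * (v77 x1 x2 + v26 x1 x2 * v80 x1 x2) := congrArg (fun z => (v71 x1 x2) * z) (s65 c)
  try simp only [v1, v10, v12, v24, v26, v66, v72, v74, v80, v81, v82, v83, v85] at a0
  try simp only [v1, v10, v12, v24, v26, v66, v72, v74, v80, v81, v82, v83, v85] at a1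
  simp only [v1, v10, v12, v24, v26, v66, v72, v74, v80, v81, v82, v83, v85]
  (try push_cast at a0 a1 ⊢)
  first | linear_combination a0 + a1 | ring | grind

theorem s93 (c : Cx x1 x2) : v93 x1 x2 = v98 x1 x2 + v26 x1 x2 * v99 x1 x2 := by
  have a1 : (v7 x1 x2) * v23 x1 x2 = (v7 x1 x2) * (v15 x1 x2 + v26 x1 x2 * v52 x1 x2) := congrArg (fun z => (v7 x1 x2) * z) (s23 c)
  try simp only [v0, v1, v10, v12, v13, v15, v26, v93, v98, v99] at a1
  simp only [v0, v1, v10, v12, v13, v15, v26, v93, v98, v99]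
  (try push_cast at a1 ⊢)
  first | linear_combination a1 | ring | grind

theorem s94 (c : Cx x1 x2) : v94 x1 x2 = v100 x1 x2 + v26 x1 x2 * v101 x1 x2 := by
  have a0 : (v0 x1 x2) * v1 x1 x2 = (v0 x1 x2) * (v12 x1 x2 + v26 x1 x2 * v40 x1 x2) := congrArg (fun z => (v0 x1 x2) * z) (s1 c)
  try simp only [v0, v1, v5, v10, v12, v26, v40, v94, v100, v101] at a0
  simp only [v0, v1, v5, v10, v12, v26, v40, v94, v100, v101]
  (try push_cast at a0 ⊢)
  first | linear_combination a0 | ring | grind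

theorem s95 (c : Cx x1 x2) : v95 x1 x2 = v102 x1 x2 + v26 x1 x2 * v103 x1 x2 := by
  have a0 := s93 c
  have a1 := s94 c
  try simp only [v0, v1, v10, v12, v26, v95, v101, v102, v103] at a0
  try simp only [v0, v1, v10, v12, v26, v95, v101, v102, v103] at a1
  simp only [v0, v1, v10, v12, v26, v95, v101, v102, v103]
  (try push_cast at a0 a1 ⊢)
  first | linear_combination a0 - a1 | ring | grind

theorem s96 (c : Cx x1 x2) : v96 x1 x2 = v104 x1 x2 + v26 x1 x2 * v105 x1 x2 := by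
  have a0 : (v59 x1 x2) * v95 x1 x2 = (v59 x1 x2) * (v102 x1 x2 + v26 x1 x2 * v103 x1 x2) := congrArg (fun z => (v59 x1 x2) * z) (s95 c)
  try simp only [v0, v1, v10, v12, v26, v95, v96, v102, v103, v104, v105] at a0
  simp only [v0, v1, v10, v12, v26, v95, v96, v102, v103, v104, v105]
  (try push_cast at a0 ⊢)
  first | linear_combination a0 | ring | grind

theorem s97 (c : Cx x1 x2) : v97 x1 x2 = v106 x1 x2 + v26 x1 x2 * v105 x1 x2 := by
  have a0 := s96 c
  try simp only [v1, v9, v10, v12, v26, v97, v106] at a0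
  simp only [v1, v9, v10, v12, v26, v97, v106]
  (try push_cast at a0 ⊢)
  first | linear_combination a0 | ring | grind

theorem s107 (c : Cx x1 x2) : v107 x1 x2 = v118 x1 x2 + v26 x1 x2 * v52 x1 x2 := by
  have a0 := s23 c
  try simp only [v0, v1, v2, v3, v10, v12, v13, v15, v26, v107, v118] at a0
  simp only [v0, v1, v2, v3, v10, v12, v13, v15, v26, v107, v118]
  (try push_cast at a0 ⊢)
  first | linear_combination a0 | ring | grind

theorem s108 (c : Cx x1 x2) : v108 x1 x2 = v121 x1 x2 + v26 x1 x2 * v52 x1 x2 := by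
  have a0 := s25 c
  try simp only [v0, v1, v2, v10, v12, v13, v15, v25, v26, v53, v108, v121] at a0
  simp only [v0, v1, v2, v10, v12, v13, v15, v25, v26, v53, v108, v121]
  (try push_cast at a0 ⊢)
  first | linear_combination a0 | ring | grind

theorem bD (c : Cx x1 x2) : v57 x1 x2 = 0 := by
  have hc := c.hc
  have h3 := s3q x1 x2
  simp only [v0, v3, v10, v11, v12, v13, v14, v15, v35, v41, v42, v45, v53, v54, v57] at hc ⊢
  push_cast at hc ⊢
  grind

theorem sD (c : Cx x1 x2) : v38 x1 x2 = v26 x1 x2 * v58 x1 x2 := by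
  have h := s38 c
  rw [bD c, zero_add] at h
  exact h

theorem s90 (c : Cx x1 x2) : v90 x1 x2 = v81 x1 x2 + v26 x1 x2 * v92 x1 x2 := by
  have hA := s66 c
  have hd := sD c
  have hK : v86 x1 x2 * v38 x1 x2 = v86 x1 x2 * (v26 x1 x2 * v58 x1 x2) := congrArg (fun z => v86 x1 x2 * z) hd
  try simp only [v1, v10, v12, v24, v26, v35, v36, v38, v41, v43, v58, v85, v89, v90, v91, v92] at hA
  try simp only [v1, v10, v12, v24, v26, v35, v36, v38, v41, v43, v58, v85, v89, v90, v91, v92] at hK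
  simp only [v1, v10, v12, v24, v26, v35, v36, v38, v41, v43, v58, v85, v89, v90, v91, v92]
  (try push_cast at hA hK ⊢)
  first | linear_combination (hA + hK) | grind

theorem bE (c : Cx x1 x2) : v106 x1 x2 = 0 := by
  have hc := c.hc
  have h3 := s3q x1 x2
  have g0 : v2 x1 x2 ≠ 0 := s3ne x1 x2
  simp only [v0, v3, v9, v10, v11, v12, v13, v14, v15, v59, v98, v100, v102, v104, v106] at hc ⊢
  push_cast at hc ⊢
  grind

theorem hE (c : Cx x1 x2) : v97 x1 x2 = v26 x1 x2 * v105 x1 x2 := by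
  have h := s97 c
  rw [bE c, zero_add] at h
  exact h

theorem bC12 (c : Cx x1 x2) : v0 x1 x2 * v12 x1 x2 - v118 x1 x2 * v33 x1 x2 = 0 := by
  have hc := c.hc
  have h3 := s3q x1 x2
  have g0 := (c.p31).ne'
  simp only [v0, v3, v5, v10, v11, v12, v13, v14, v15, v27, v28, v29, v30, v31, v32, v33, v118] at hc g0 ⊢
  push_cast at hc g0 ⊢
  grind

theorem hC12 (c : Cx x1 x2) : v0 x1 x2 * v1 x1 x2 - v107 x1 x2 * v33 x1 x2 = v26 x1 x2 * v120 x1 x2 := by
  have a2 : v0 x1 x2 * v1 x1 x2 = v0 x1 x2 * (v12 x1 x2 + v26 x1 x2 * v40 x1 x2) := congrArg (fun z => v0 x1 x2 * z) (s1 c)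
  have a3 : v33 x1 x2 * v107 x1 x2 = v33 x1 x2 * (v118 x1 x2 + v26 x1 x2 * v52 x1 x2) := congrArg (fun z => v33 x1 x2 * z) (s107 c)
  have b := bC12 c
  try simp only [v0, v1, v2, v3, v5, v10, v12, v13, v15, v26, v40, v101, v107, v118, v119, v120] at a2
  try simp only [v0, v1, v2, v3, v5, v10, v12, v13, v15, v26, v40, v101, v107, v118, v119, v120] at a3
  try simp only [v0, v1, v2, v3, v5, v10, v12, v13, v15, v26, v40, v101, v107, v118, v119, v120] at b
  simp only [v0, v1, v2, v3, v5, v10, v12, v13, v15, v26, v40, v101, v107, v118, v119, v120]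
  (try push_cast at a2 a3 b ⊢)
  first | linear_combination a2 - a3 + b | grind

theorem bC32 (c : Cx x1 x2) : v121 x1 x2 * v12 x1 x2 - v118 x1 x2 * v81 x1 x2 = 0 := by
  have hc := c.hc
  have h3 := s3q x1 x2
  have g1 := (c.p76).ne'
  have g0 : v2 x1 x2 ≠ 0 := s3ne x1 x2
  simp only [v0, v3, v5, v10, v11, v12, v13, v14, v15, v41, v53, v59, v67, v69, v71, v75, v76, v77, v81, v118, v121] at hc g1 ⊢
  push_cast at hc g1 ⊢
  grind

theorem hC32 (c : Cx x1 x2) : v108 x1 x2 * v1 x1 x2 - v107 x1 x2 * v90 x1 x2 = v26 x1 x2 * v128 x1 x2 := by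
  have a1 : v1 x1 x2 * v108 x1 x2 = v1 x1 x2 * (v121 x1 x2 + v26 x1 x2 * v52 x1 x2) := congrArg (fun z => v1 x1 x2 * z) (s108 c)
  have a2 : v121 x1 x2 * v1 x1 x2 = v121 x1 x2 * (v12 x1 x2 + v26 x1 x2 * v40 x1 x2) := congrArg (fun z => v121 x1 x2 * z) (s1 c)
  have a3 : v90 x1 x2 * v107 x1 x2 = v90 x1 x2 * (v118 x1 x2 + v26 x1 x2 * v52 x1 x2) := congrArg (fun z => v90 x1 x2 * z) (s107 c)
  have a4 : v118 x1 x2 * v90 x1 x2 = v118 x1 x2 * (v81 x1 x2 + v26 x1 x2 * v92 x1 x2) := congrArg (fun z => v118 x1 x2 * z) (s90 c)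
  have b := bC32 c
  try simp only [v0, v1, v2, v3, v5, v10, v12, v13, v15, v25, v26, v40, v53, v85, v90, v92, v107, v108, v118, v121, v122, v123, v124, v125, v126, v127, v128] at a1
  try simp only [v0, v1, v2, v3, v5, v10, v12, v13, v15, v25, v26, v40, v53, v85, v90, v92, v107, v108, v118, v121, v122, v123, v124, v125, v126, v127, v128] at a2
  try simp only [v0, v1, v2, v3, v5, v10, v12, v13, v15, v25, v26, v40, v53, v85, v90, v92, v107, v108, v118, v121, v122, v123, v124, v125, v126, v127, v128] at a3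
  try simp only [v0, v1, v2, v3, v5, v10, v12, v13, v15, v25, v26, v40, v53, v85, v90, v92, v107, v108, v118, v121, v122, v123, v124, v125, v126, v127, v128] at a4
  try simp only [v0, v1, v2, v3, v5, v10, v12, v13, v15, v25, v26, v40, v53, v85, v90, v92, v107, v108, v118, v121, v122, v123, v124, v125, v126, v127, v128] at b
  simp only [v0, v1, v2, v3, v5, v10, v12, v13, v15, v25, v26, v40, v53, v85, v90, v92, v107, v108, v118, v121, v122, v123, v124, v125, v126, v127, v128]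
  (try push_cast at a1 a2 a3 a4 b ⊢)
  first | linear_combination a1 + a2 - a3 - a4 + b | grind

theorem bC13 (c : Cx x1 x2) : v0 x1 x2 * v81 x1 x2 - v121 x1 x2 * v33 x1 x2 = 0 := by
  have hc := c.hc
  have h3 := s3q x1 x2
  have g0 := (c.p31).ne'
  have g2 := (c.p76).ne'
  have g1 : v2 x1 x2 ≠ 0 := s3ne x1 x2
  simp only [v0, v3, v5, v10, v11, v12, v13, v14, v15, v27, v28, v29, v30, v31, v32, v33, v41, v53, v59, v67, v69, v71, v75, v76, v77, v81, v121] at hc g0 g2 ⊢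
  push_cast at hc g0 g2 ⊢
  grind

theorem hC13 (c : Cx x1 x2) : v0 x1 x2 * v90 x1 x2 - v108 x1 x2 * v33 x1 x2 = v26 x1 x2 * v130 x1 x2 := by
  have a2 : v0 x1 x2 * v90 x1 x2 = v0 x1 x2 * (v81 x1 x2 + v26 x1 x2 * v92 x1 x2) := congrArg (fun z => v0 x1 x2 * z) (s90 c)
  have a3 : v33 x1 x2 * v108 x1 x2 = v33 x1 x2 * (v121 x1 x2 + v26 x1 x2 * v52 x1 x2) := congrArg (fun z => v33 x1 x2 * z) (s108 c)
  have b := bC13 c
  try simp only [v0, v1, v2, v10, v12, v13, v15, v25, v26, v53, v85, v90, v92, v108, v119, v121, v129, v130] at a2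
  try simp only [v0, v1, v2, v10, v12, v13, v15, v25, v26, v53, v85, v90, v92, v108, v119, v121, v129, v130] at a3
  try simp only [v0, v1, v2, v10, v12, v13, v15, v25, v26, v53, v85, v90, v92, v108, v119, v121, v129, v130] at b
  simp only [v0, v1, v2, v10, v12, v13, v15, v25, v26, v53, v85, v90, v92, v108, v119, v121, v129, v130]
  (try push_cast at a2 a3 b ⊢)
  first | linear_combination a2 - a3 + b | grind

theorem core (c : Cx x1 x2) (hW : 0 ≤ v26 x1 x2) (hWQ : 0 ≤ v26 x1 x2 * v132 x1 x2) :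
    0 ≤ starw_v (v97 x1 x2) (v0 x1 x2) (v107 x1 x2) ((-v108 x1 x2)) ((-v33 x1 x2)) ((-v1 x1 x2)) (v90 x1 x2) := by
  have e1 : v107 x1 x2 * (-v33 x1 x2) - v0 x1 x2 * (-v1 x1 x2) = v26 x1 x2 * v120 x1 x2 := by linear_combination hC12 c
  have e2 : (-v108 x1 x2) * (-v1 x1 x2) - v107 x1 x2 * v90 x1 x2 = v26 x1 x2 * v128 x1 x2 := by linear_combination hC32 c
  have e3 : v0 x1 x2 * v90 x1 x2 - (-v108 x1 x2) * (-v33 x1 x2) = v26 x1 x2 * v130 x1 x2 := by linear_combination hC13 c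
  have f2 : (-v108 x1 x2) = v131 x1 x2 := by
    simp only [v0, v2, v3, v25, v107, v108, v131]
    try (push_cast; ring)
  rw [starw_eq hW (hE c) e1 e2 e3]
  rw [f2]
  exact hWQ

end Pool.Agent.Strip051.LB.ChA00V1_pp_023
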